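import Pool.Agent.helper32.EX.SpecD

set_option autoImplicit false

namespace Pool.Agent.EX

theorem CT1_prk {n : ℕ} {C : Matrix (Fin n) (Fin n) ℤ} [hC : Fact (Dyn C)] {F : Type} [Field F] (k : ℤ)
    (c : Rt C → F) (h : ∀ α : Rt C, Pos α → ht α = k → c α = 0) : PRK k c = 1 := by
  classical
  unfold PRK
  apply List.prod_eq_one
  intro x hx
  rw [List.mem_map] at hx
  obtain ⟨α, hα, rfl⟩ := hx
  rw [Finset.mem_toList, Finset.mem_filter] at hα
  rw [h α hα.2.1 hα.2.2, xl_zero]

theorem CT1_ev_mem {n : ℕ} {C : Matrix (Fin n) (Fin n) ℤ} [_hC : Fact (Dyn C)] {F : Type} [Field F]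
    (δ : Rt C) (j : ℤ) (hj : j ≤ ht δ) : ev C δ (1 : F) ∈ VG C F j := by
  refine ⟨fun _ => rfl, fun α hα => ?_⟩
  rw [ev_snd, if_neg]
  rintro rfl
  unfold ht at hj
  omega

theorem CT1_ht_neg {n : ℕ} {C : Matrix (Fin n) (Fin n) ℤ} [_hC : Fact (Dyn C)] (δ : Rt C) : ht (-δ) = - ht δ := by
  unfold ht
  rw [neg_val, ← Finset.sum_neg_distrib]
  rfl

theorem CT1_ht_sm {n : ℕ} {C : Matrix (Fin n) (Fin n) ℤ} [hC : Fact (Dyn C)] (i : Fin n) : ht (sm C i) = 1 := by
  unfold ht sm
  simp

theorem CT1 (hPKD : PKD_stmt) (hLDA : LDA_stmt) (hRTD : RTD_stmt) (hDM4 : DM4_stmt) : CT1_stmt := by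
  intro n C hC F _ θ hθ k hk hkθ z hz hcom
  obtain ⟨c, z', hz', hzz⟩ := hPKD C F k hk z hz
  have key : ∀ α : Rt C, Pos α → ht α = k → c α = 0 := by
    intro α hα hht
    by_contra hc
    have hne : α ≠ θ := by
      rintro rfl
      omega
    obtain ⟨i, hi⟩ := (hDM4 C θ hθ).1 α hα hne
    -- the root β = α + α_i
    have hβQ : Q C (α.1 + (sm C i).1) (α.1 + (sm C i).1) = 2 := by
      rw [Q_add_self, hi]
      norm_num
    let β : Rt C := ⟨α.1 + (sm C i).1, hβQ⟩
    have hβ1 : β.1 = α.1 + (sm C i).1 := rfl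
    have hhtβ : ht β = k + 1 := by
      have h1 : ht β = ht α + ht (sm C i) := by
        unfold ht
        rw [hβ1, ← Finset.sum_add_distrib]
        rfl
      rw [h1, hht, CT1_ht_sm]
    have hsum1 : ∀ γ : Rt C, γ.1 + (-β).1 = (-(sm C i)).1 ↔ γ = α := by
      intro γ
      rw [neg_val, neg_val, hβ1]
      constructor
      · intro h
        apply Subtype.ext
        have h2 : γ.1 = (γ.1 + -(α.1 + (sm C i).1)) + (α.1 + (sm C i).1) := by abel
        rw [h2, h]
        abel
      · rintro rfl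
        abel
    have hβi : -(sm C i) ≠ -β := by
      intro h
      have h1 : (-(sm C i)).1 = (-β).1 := congrArg Subtype.val h
      rw [neg_val, neg_val, hβ1] at h1
      have h2 : α.1 = 0 := by
        have h3 : α.1 = -(-(α.1 + (sm C i).1)) + -(sm C i).1 := by abel
        rw [h3, ← h1]
        abel
      exact ne_zero_of_rt α h2
    have hiβ : (sm C i).1 + (-β).1 = (-α).1 := by
      rw [neg_val, neg_val, hβ1]
      abel
    -- first use of LDA
    obtain ⟨S, hS, hS2⟩ := hLDA C F k hk c z' hz' (-(k + 1)) (ev C (-β) 1)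
      (CT1_ev_mem (-β) _ (by rw [CT1_ht_neg, hhtβ]))
    rw [← hzz] at hS2
    have hαS : α ∈ S := (hS α).2 ⟨hα, hht⟩
    have e1 : (z (ev C (-β) 1)).2 (-(sm C i)) = c α * (eps C α.1 (-β).1 : F) := by
      have h1 := hS2.2 (-(sm C i)) (by
        have h2 := CT1_ht_neg (sm C i)
        rw [CT1_ht_sm] at h2
        unfold ht at h2
        rw [h2]
        omega)
      have h3 : (∑ γ ∈ S, c γ • br (ev C γ (1 : F)) (ev C (-β) 1)).2 (-(sm C i)) =
          c α * (eps C α.1 (-β).1 : F) := by
        rw [Prod.snd_sum, Finset.sum_apply, Finset.sum_eq_single α]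
        · rw [Prod.smul_snd, Pi.smul_apply, smul_eq_mul, br_ev_ev]
          have h4 := (hsum1 α).2 rfl
          simp only [← h4, if_true, mul_one]
        · intro γ _ hγ
          rw [Prod.smul_snd, Pi.smul_apply, smul_eq_mul, br_ev_ev]
          have h4 : ¬ (-(sm C i)).1 = γ.1 + (-β).1 := fun h5 => hγ ((hsum1 γ).1 h5.symm)
          simp only [if_neg h4, mul_zero]
        · intro h
          exact absurd hαS h
      rw [Prod.snd_sub, Prod.snd_sub, Pi.sub_apply, Pi.sub_apply, h3, ev_snd, if_neg hβi, sub_zero] at h1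
      exact sub_eq_zero.1 h1
    -- second use of LDA
    obtain ⟨T, hT, hT2⟩ := hLDA C F k hk c z' hz' (-k) (ev C (-α) 1)
      (CT1_ev_mem (-α) _ (by rw [CT1_ht_neg, hht]))
    rw [← hzz] at hT2
    have hαT : α ∈ T := (hT α).2 ⟨hα, hht⟩
    have e2 : (z (ev C (-α) 1)).1 = -(c α • rt F α) := by
      have h1 := hT2.1 (by omega)
      have h3 : (∑ γ ∈ T, c γ • br (ev C γ (1 : F)) (ev C (-α) 1)).1 = -(c α • rt F α) := by
        rw [Prod.fst_sum, Finset.sum_eq_single α]
        · rw [Prod.smul_fst, br_ev_neg]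
          simp
        · intro γ _ hγ
          rw [Prod.smul_fst, br_ev_ev]
          have h4 : ¬ (-α : Rt C) = -γ := by
            intro h5
            apply hγ
            have h6 := congrArg (fun t : Rt C => -t) h5
            simp only [rt_neg_neg] at h6
            exact h6.symm
          simp only [if_neg h4, zero_smul, neg_zero, smul_zero]
        · intro h
          exact absurd hαT h
      rw [Prod.fst_sub, Prod.fst_sub, h3, ev_fst, sub_zero] at h1
      exact sub_eq_zero.1 h1
    -- x_i(1) e_δ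
    have e3 : xl (sm C i) (1 : F) (ev C (-β) 1) = ev C (-β) 1 + (eps C (sm C i).1 (-β).1 : F) • ev C (-α) 1 := by
      rw [xl_apply]
      have hz0 : (ev C (-β) (1 : F)).2 (-(sm C i)) = 0 := by rw [ev_snd, if_neg hβi]
      ext γ
      · simp only [xf, hz0]
        simp
      · simp only [xf, hz0, Prod.snd_add, Pi.add_apply, Prod.smul_snd, Pi.smul_apply, ev_fst, bl_zero_left, smul_eq_mul, mul_zero,
          neg_zero, add_zero, ite_self, one_mul]
        congr 1
        rw [ext_ev, ev_snd (-α)]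
        by_cases h1 : γ = -α
        · have h2 : γ.1 - (sm C i).1 = (-β).1 := by
            rw [h1, ← hiβ]
            abel
          rw [if_pos h2, if_pos h1, h2]
        · have h2 : ¬ γ.1 - (sm C i).1 = (-β).1 := by
            intro h3
            apply h1
            apply Subtype.ext
            rw [← hiβ, ← h3]
            abel
          rw [if_neg h2, if_neg h1, mul_zero, mul_zero]
    have hmem : xl (sm C i) (1 : F) ∈ UU C F := by
      apply Subgroup.subset_closure
      refine ⟨sm C i, 1, ?_, rfl⟩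
      intro j
      have : (sm C i).1 j = (Pi.single i 1 : Fin n → ℤ) j := rfl
      rw [this, Pi.single_apply]
      split_ifs <;> norm_num
    have e4 := congrArg (fun g : LV C F ≃ₗ[F] LV C F => (g (ev C (-β) 1)).1) (hcom _ hmem)
    have e5 : ((z * xl (sm C i) (1 : F)) (ev C (-β) 1)).1 =
        (z (ev C (-β) 1)).1 + (eps C (sm C i).1 (-β).1 : F) • (-(c α • rt F α)) := by
      rw [LinearEquiv.mul_apply, e3, map_add, map_smul, Prod.fst_add, Prod.smul_fst, e2]
    have e6 : ((xl (sm C i) (1 : F) * z) (ev C (-β) 1)).1 =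
        (z (ev C (-β) 1)).1 - (c α * (eps C α.1 (-β).1 : F)) • rt F (sm C i) := by
      rw [LinearEquiv.mul_apply, xl_apply]
      show (z (ev C (-β) 1)).1 - (1 * (z (ev C (-β) 1)).2 (-(sm C i))) • rt F (sm C i) = _
      rw [e1, one_mul]
    have e4 : ((z * xl (sm C i) (1 : F)) (ev C (-β) 1)).1 = ((xl (sm C i) (1 : F) * z) (ev C (-β) 1)).1 := e4
    rw [e5, e6] at e4
    have e7 : (eps C (sm C i).1 (-β).1 : F) • (c α • rt F α) = (c α * (eps C α.1 (-β).1 : F)) • rt F (sm C i) := by
      rw [smul_neg, ← sub_eq_add_neg] at e4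
      exact sub_right_injective e4
    have e8 : c α • ((eps C (sm C i).1 (-β).1 : F) • rt F α - (eps C α.1 (-β).1 : F) • rt F (sm C i)) = 0 := by
      rw [smul_sub, smul_smul (c α) (eps C α.1 (-β).1 : F), ← e7, smul_comm, sub_self]
    have e9 := (smul_eq_zero.1 e8).resolve_left hc
    have hR := hRTD C F α (sm C i) hi
    rcases eps_or C (sm C i).1 (-β).1 with h1 | h1 <;> rcases eps_or C α.1 (-β).1 with h2 | h2 <;> rw [h1, h2] at e9
    · apply hR.2
      simpa using e9
    · apply hR.1
      simpa using e9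
    · apply hR.1
      have h3 : -(rt F α + rt F (sm C i)) = 0 := by
        rw [← e9]
        simp
        abel
      exact neg_eq_zero.1 h3
    · apply hR.2
      have h3 : -(rt F α - rt F (sm C i)) = 0 := by
        rw [← e9]
        simp
        abel
      exact neg_eq_zero.1 h3
  rw [hzz, CT1_prk k c key, one_mul]
  exact hz'

end Pool.Agent.EX
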