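import Pool.Agent.helper32.EX.SpecA

set_option autoImplicit false

namespace Pool.Agent.EX

theorem SIM (hSGN : SGN_stmt) : SIM_stmt := by
  intro n C hC α i hpos hne
  obtain ⟨j, hji, hj⟩ : ∃ j, j ≠ i ∧ 0 < α.1 j := by
    by_contra hcon
    push Not at hcon
    have h0 : ∀ j, j ≠ i → α.1 j = 0 := fun j hj => le_antisymm (hcon j hj) (hpos j)
    have h1 : α.1 = (α.1 i) • (Pi.single i 1 : Fin n → ℤ) := by
      funext k
      by_cases hk : k = i
      · subst hk
        simp
      · rw [h0 k hk]
        simp [hk]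
    have h2 : Q C α.1 α.1 = α.1 i * (α.1 i * 2) := by
      have h3 : Q C ((α.1 i) • (Pi.single i 1 : Fin n → ℤ)) ((α.1 i) • (Pi.single i 1 : Fin n → ℤ)) =
          α.1 i * (α.1 i * 2) := by
        rw [Q_smul_left, Q_smul_right, Q_single_single, hC.out.diag i]
      rw [← h1] at h3
      exact h3
    rw [α.2] at h2
    have h4 : α.1 i = 1 := by
      have h5 := hpos i
      nlinarith
    apply hne
    apply Subtype.ext
    rw [h1, h4, one_smul]
    rfl
  rcases hSGN C (rf (sm C i) α) with h | h
  · exact h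
  · exfalso
    have h1 := h j
    have h2 : (rf (sm C i) α).1 j = α.1 j := by
      have h3 : (rf (sm C i) α).1 j = α.1 j - Q C (sm C i).1 α.1 * (sm C i).1 j := rfl
      have h4 : (sm C i).1 j = 0 := by
        have : (sm C i).1 j = (Pi.single i 1 : Fin n → ℤ) j := rfl
        rw [this]
        simp [hji]
      rw [h3, h4]
      ring
    rw [neg_val, Pi.neg_apply, h2] at h1
    omega

end Pool.Agent.EX
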